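import Pool.Agent.Helper22.TW.Stmts
import Pool.Agent.Helper50.BSC.PadLib

set_option autoImplicit false

namespace Pool.Agent.Helper22.TW

open Pool.Agent.Helper14.BSC Polynomial

section

variable {p : ℕ} [hp : Fact p.Prime]

lemma qd_natCast (n : ℕ) : ‖(n : ℂ_[p])‖ = ‖(n : ℚ_[p])‖ := by
  have h := norm_algebraMap' ℂ_[p] (n : ℚ_[p])
  rw [map_natCast] at h
  exact h

lemma qd_pow (m : ℕ) : ‖((p ^ m : ℕ) : ℂ_[p])‖ = ((p : ℝ) ^ m)⁻¹ := by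
  rw [qd_natCast, Nat.cast_pow, norm_pow, Padic.norm_p, inv_pow]

lemma qd_le_one (n : ℕ) : ‖(n : ℂ_[p])‖ ≤ 1 := by
  rw [qd_natCast]
  have := Padic.norm_int_le_one (p := p) (n : ℤ)
  simpa using this

lemma qd_dvd {m c : ℕ} (h : p ^ m ∣ c) : ‖(c : ℂ_[p])‖ ≤ ((p : ℝ) ^ m)⁻¹ := by
  obtain ⟨k, rfl⟩ := h
  rw [Nat.cast_mul, norm_mul, qd_pow]
  exact mul_le_of_le_one_right (by positivity) (qd_le_one k)

/-- square roots of elements close to `1` -/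
lemma qd_sqrt (E : IntermediateField ℚ_[p] ℂ_[p]) (hE : FiniteDimensional ℚ_[p] E) {z : ℂ_[p]}
    (hz : z ∈ E) (hz1 : ‖z - 1‖ < ‖(2 : ℂ_[p])‖ ^ 2) : ∃ w ∈ E, w ≠ 0 ∧ w ^ 2 = z := by
  obtain ⟨w, hw⟩ := IsAlgClosed.exists_pow_nat_eq z (n := 2) (by norm_num)
  have h2 : ‖(2 : ℂ_[p])‖ ≤ 1 := by
    have := qd_le_one (p := p) 2
    simpa using this
  have h2pos : 0 < ‖(2 : ℂ_[p])‖ := norm_pos_iff.2 (by norm_num)
  have hz0 : z ≠ 0 := by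
    rintro rfl
    rw [zero_sub, norm_neg, norm_one] at hz1
    nlinarith
  have hw0 : w ≠ 0 := by
    rintro rfl
    exact hz0 (by rw [← hw]; norm_num)
  refine ⟨w, ?_, hw0, hw⟩
  by_contra hwE
  -- `w` is algebraic over `E`
  let z' : E := ⟨z, hz⟩
  let P : E[X] := (X + C 1) ^ 2 - C z'
  have hPd : (X + C 1 : E[X]).natDegree = 1 := natDegree_X_add_C 1
  have hPm : P.Monic := by
    have h1 : ((X + C 1 : E[X]) ^ 2).Monic := (monic_X_add_C 1).pow 2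
    refine h1.sub_of_left ?_
    refine lt_of_le_of_lt degree_C_le ?_
    rw [degree_pow, degree_X_add_C]
    norm_num
  have hPn : P.natDegree = 2 := by
    have h1 : ((X + C 1 : E[X]) ^ 2).natDegree = 2 := by rw [natDegree_pow, hPd]
    have h3 : P.natDegree = ((X + C 1 : E[X]) ^ 2).natDegree := by
      refine natDegree_sub_eq_left_of_natDegree_lt ?_
      rw [natDegree_C, h1]; norm_num
    rw [h3, h1]
  have heval : ∀ x : ℂ_[p], aeval x P = (x + 1) ^ 2 - z := by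
    intro x
    simp [P, z']
  have hx0 : aeval (w - 1) P = 0 := by
    rw [heval, ← hw]; ring
  have hxalg : IsAlgebraic E (w - 1) := ⟨P, hPm.ne_zero, hx0⟩
  have hdvd : minpoly E (w - 1) ∣ P := minpoly.dvd E _ hx0
  have hmm := minpoly.monic hxalg.isIntegral
  have hdeg : 2 ≤ (minpoly E (w - 1)).natDegree := by
    have hpos := minpoly.natDegree_pos hxalg.isIntegral
    by_contra hlt
    have h1 : (minpoly E (w - 1)).natDegree = 1 := by omega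
    have h3 : (minpoly E (w - 1)).degree = 1 := by
      rw [degree_eq_natDegree hmm.ne_zero, h1]; rfl
    obtain ⟨y, hy⟩ := minpoly.mem_range_of_degree_eq_one E (w - 1) h3
    apply hwE
    have h4 : w = (y : ℂ_[p]) + 1 := by
      have : (y : ℂ_[p]) = w - 1 := hy
      rw [this]; ring
    rw [h4]
    exact add_mem y.2 (one_mem E)
  have heq : minpoly E (w - 1) = P :=
    (eq_of_monic_of_dvd_of_natDegree_le hmm hPm hdvd (by rw [hPn]; exact hdeg)).symm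
  have hconj := pl_conj E (pl_alg E hE hxalg) (y := -w - 1) (by
    rw [heq, heval, ← hw]; ring)
  have hprod : ‖w - 1‖ * ‖-w - 1‖ = ‖z - 1‖ := by
    rw [← norm_mul, ← norm_neg (z - 1)]
    congr 1
    rw [← hw]; ring
  rw [hconj, ← pow_two] at hprod
  have h5 : ‖w - 1‖ < ‖(2 : ℂ_[p])‖ := by
    rw [← hprod] at hz1
    exact lt_of_pow_lt_pow_left₀ 2 (norm_nonneg _) hz1
  have h6 : ‖(2 : ℂ_[p])‖ ≤ max ‖-(w - 1)‖ ‖-(-w - 1)‖ := by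
    have h7 := IsUltrametricDist.norm_add_le_max (-(w - 1)) (-(-w - 1))
    have h8 : -(w - 1) + -(-w - 1) = (2 : ℂ_[p]) := by ring
    rwa [h8] at h7
  rw [norm_neg, norm_neg, hconj, max_self] at h6
  exact absurd h6 (not_le.2 h5)

end

theorem st_QD (hEMB : ST_EMB) (hEFIN : ST_EFIN) : ST_QD := by
  intro F _ _ hFG p hp σ₀ E hE hσE
  obtain ⟨q, hq, hqp⟩ : ∃ q : ℕ, q.Prime ∧ q ≠ p := by
    by_cases h : p = 2
    · exact ⟨3, Nat.prime_three, by omega⟩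
    · exact ⟨2, Nat.prime_two, fun h' => h h'.symm⟩
  have hFq : Fact q.Prime := ⟨hq⟩
  obtain ⟨σ₁, E1, hE1, hσE1⟩ := hEMB F hFG q
  obtain ⟨e, N, he, -, hej⟩ := hEFIN q E1 hE1
  have hq1 : (1 : ℝ) < q := by exact_mod_cast hq.one_lt
  have hq0 : (0 : ℝ) < q := by linarith
  -- the smallest positive valuation
  have hex : ∃ n : ℕ, 0 < n ∧ ∃ x : F, x ≠ 0 ∧ ‖σ₁ x‖ ^ e = (q : ℝ) ^ (-(n : ℤ)) := by
    refine ⟨e, he, (q : F), by exact_mod_cast hq.ne_zero, ?_⟩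
    have h1 := qd_pow (p := q) 1
    rw [pow_one, pow_one] at h1
    rw [map_natCast, h1, zpow_neg, zpow_natCast, inv_pow]
  classical
  obtain ⟨hd0, δ₀, hδ₀, hδ₀e⟩ := Nat.find_spec hex
  set d := Nat.find hex with hd
  have hmin : ∀ m : ℕ, m < d → ¬ (0 < m ∧ ∃ x : F, x ≠ 0 ∧ ‖σ₁ x‖ ^ e = (q : ℝ) ^ (-(m : ℤ))) :=
    fun m hm => Nat.find_min hex hm
  have hγpos : 0 < ‖σ₁ δ₀‖ := norm_pos_iff.2 ((map_ne_zero σ₁).2 hδ₀)
  have hγlt : ‖σ₁ δ₀‖ < 1 := by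
    by_contra hge
    push Not at hge
    have h1 : (1 : ℝ) ≤ ‖σ₁ δ₀‖ ^ e := one_le_pow₀ hge
    rw [hδ₀e, zpow_neg, zpow_natCast] at h1
    have h2 : (1 : ℝ) < (q : ℝ) ^ d := one_lt_pow₀ hq1 hd0.ne'
    have h3 := inv_lt_one_of_one_lt₀ h2
    linarith
  have hnsq : ∀ y : F, y ≠ 0 → ‖σ₁ y‖ ^ 2 ≠ ‖σ₁ δ₀‖ := by
    intro y hy h
    obtain ⟨⟨j, hj⟩, -⟩ := hej (σ₁ y) (hσE1 y) ((map_ne_zero σ₁).2 hy)
    have h1 : (q : ℝ) ^ (2 * j) = (q : ℝ) ^ (-(d : ℤ)) := by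
      rw [← hδ₀e, ← h, ← pow_mul, mul_comm 2 e, pow_mul, hj, ← zpow_natCast, ← zpow_mul]
      congr 1
      push_cast
      ring
    have h2 := zpow_right_injective₀ hq0 hq1.ne' h1
    obtain ⟨m, hm⟩ : ∃ m : ℕ, (m : ℤ) = -j := ⟨(-j).toNat, by omega⟩
    refine hmin m (by omega) ⟨by omega, y, hy, ?_⟩
    rw [hj, hm, neg_neg]
  -- the exponents
  have hp1 : (1 : ℝ) < p := by exact_mod_cast hp.out.one_lt
  have h2pos : 0 < ‖(2 : ℂ_[p])‖ ^ 2 := pow_pos (norm_pos_iff.2 (by norm_num)) 2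
  obtain ⟨m, hm⟩ : ∃ m : ℕ, ((p : ℝ) ^ m)⁻¹ * ‖σ₀ δ₀ - 1‖ < ‖(2 : ℂ_[p])‖ ^ 2 := by
    obtain ⟨m, hm⟩ := pow_unbounded_of_one_lt (‖σ₀ δ₀ - 1‖ / ‖(2 : ℂ_[p])‖ ^ 2) hp1
    refine ⟨m, ?_⟩
    have hpm : (0 : ℝ) < (p : ℝ) ^ m := by positivity
    rw [div_lt_iff₀ h2pos] at hm
    rw [inv_mul_lt_iff₀ hpm]
    exact hm
  obtain ⟨l, hl⟩ : ∃ l : ℕ, ((q : ℝ) ^ l)⁻¹ < ‖σ₁ δ₀‖ := by
    obtain ⟨l, hl⟩ := pow_unbounded_of_one_lt (‖σ₁ δ₀‖⁻¹) hq1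
    refine ⟨l, ?_⟩
    have hql : (0 : ℝ) < (q : ℝ) ^ l := by positivity
    exact inv_lt_of_inv_lt₀ hγpos hl
  -- the integer
  have hcop : Nat.Coprime (p ^ m) (q ^ l) :=
    Nat.Coprime.pow m l ((Nat.coprime_primes hp.out hq).2 (Ne.symm hqp))
  obtain ⟨c, hc0, hc1⟩ := Nat.chineseRemainder hcop 0 1
  have hcp : p ^ m ∣ c := (Nat.modEq_zero_iff_dvd).1 hc0
  have hcq : ‖((c : ℂ_[q]) - 1)‖ ≤ ((q : ℝ) ^ l)⁻¹ := by
    by_cases hc : c = 0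
    · have h1 : q ^ l ∣ 1 := by
        rw [hc] at hc1
        exact (Nat.modEq_zero_iff_dvd).1 hc1.symm
      have h2 : q ^ l = 1 := Nat.dvd_one.1 h1
      have h3 : ((q : ℝ) ^ l) = 1 := by exact_mod_cast h2
      rw [hc, h3, Nat.cast_zero, zero_sub, norm_neg, norm_one, inv_one]
    · have h1 : q ^ l ∣ c - 1 := (Nat.modEq_iff_dvd' (by omega)).1 hc1.symm
      have h2 := qd_dvd (p := q) h1
      rwa [Nat.cast_sub (by omega), Nat.cast_one] at h2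
  refine ⟨1 + c * (δ₀ - 1), ?_, ?_⟩
  · rintro ⟨y, hy⟩
    have h1 : σ₁ (1 + c * (δ₀ - 1)) = σ₁ δ₀ + ((c : ℂ_[q]) - 1) * (σ₁ δ₀ - 1) := by
      rw [map_add, map_mul, map_sub, map_one, map_natCast]; ring
    have h2 : ‖σ₁ δ₀ - 1‖ ≤ 1 := by
      have h3 := IsUltrametricDist.norm_add_le_max (σ₁ δ₀) (-1)
      rw [norm_neg, norm_one, ← sub_eq_add_neg] at h3
      exact h3.trans (max_le hγlt.le le_rfl)
    have h3 : ‖((c : ℂ_[q]) - 1) * (σ₁ δ₀ - 1)‖ < ‖σ₁ δ₀‖ := by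
      rw [norm_mul]
      calc ‖((c : ℂ_[q]) - 1)‖ * ‖σ₁ δ₀ - 1‖ ≤ ((q : ℝ) ^ l)⁻¹ * 1 :=
          mul_le_mul hcq h2 (norm_nonneg _) (by positivity)
        _ < ‖σ₁ δ₀‖ := by rw [mul_one]; exact hl
    have h4 : ‖σ₁ (1 + c * (δ₀ - 1))‖ = ‖σ₁ δ₀‖ := by
      rw [h1, IsUltrametricDist.norm_add_eq_max_of_norm_ne_norm h3.ne', max_eq_left h3.le]
    rw [hy, map_mul, norm_mul, ← pow_two] at h4
    refine hnsq y ?_ h4
    rintro rfl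
    rw [map_zero, norm_zero] at h4
    rw [← h4] at hγpos
    norm_num at hγpos
  · refine qd_sqrt E hE (hσE _) ?_
    have h1 : σ₀ (1 + c * (δ₀ - 1)) - 1 = (c : ℂ_[p]) * (σ₀ δ₀ - 1) := by
      rw [map_add, map_mul, map_sub, map_one, map_natCast]; ring
    rw [h1, norm_mul]
    refine lt_of_le_of_lt ?_ hm
    exact mul_le_mul_of_nonneg_right (qd_dvd hcp) (norm_nonneg _)

end Pool.Agent.Helper22.TW
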